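import Pool.Agent.H.MP_83e36b_nt.tw.CDef

/-! Extensions by the double cover `2.A_n` with the action through `S_n`. -/

set_option autoImplicit false

namespace DC83

/-- `χ` maps the kernel of `q` isomorphically onto the double cover `2.A_n = twoAlt n n` of the
alternating group, and the homomorphism `π : G → S_n` extends the natural map from the kernel of `q` to
`A_n`: `χ(h) e_i χ(h)⁻¹ = e_(π(h)(i))` for `h` in the kernel. -/
structure KerAlt (n : ℕ) {G A : Type} [Group G] [Group A] (q : G →* A) (χ : q.ker →* CMat n)
    (π : G →* Equiv.Perm (Fin n)) : Prop where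
  inj : Function.Injective χ
  image : ∀ x, x ∈ twoAlt n n ↔ ∃ h, χ h = x
  nat : ∀ (h : q.ker) (i : Fin n), χ h * gE n i = gE n (π h i) * χ h

end DC83
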