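import Pool.Agent.H.MP_83e36b_nt.re.Cj
import Pool.Agent.H.MP_83e36b_nt.tw.CDef

/-! Homomorphisms to `2.A_n` as a set of matrices. -/

set_option autoImplicit false

open Matrix

namespace DC83

private theorem Br_sq {n : ℕ} {i j : Fin n} (h : i ≠ j) :
    (cE ℚ n i - cE ℚ n j) * (cE ℚ n i - cE ℚ n j) = (2 : ℚ) • 1 := by
  have h1 := cE_anti ℚ n h
  rw [sub_mul, mul_sub, mul_sub, cE_sq, cE_sq, h1, two_smul]
  abel

private theorem Br_inv {n : ℕ} {i j k l : Fin n} (h : i ≠ j) (h' : k ≠ l) :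
    ((1 / 2 : ℚ) • ((cE ℚ n i - cE ℚ n j) * (cE ℚ n k - cE ℚ n l))) *
      ((1 / 2 : ℚ) • ((cE ℚ n k - cE ℚ n l) * (cE ℚ n i - cE ℚ n j))) = 1 := by
  have e1 := Br_sq h
  have e2 := Br_sq h'
  generalize cE ℚ n i - cE ℚ n j = a at *
  generalize cE ℚ n k - cE ℚ n l = b at *
  have e3 : a * b * (b * a) = (4 : ℚ) • 1 := by
    calc a * b * (b * a) = a * (b * b) * a := by simp only [mul_assoc]
      _ = (2 : ℚ) • (a * a) := by
          rw [e2, Matrix.mul_smul, mul_one, Matrix.smul_mul]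
      _ = (4 : ℚ) • 1 := by rw [e1, smul_smul]; norm_num
  rw [Matrix.smul_mul, Matrix.mul_smul, e3, smul_smul, smul_smul]
  norm_num

/-- the elements `x` with `x + x = y` -/
private theorem Br_half {N : ℕ} (x y : Matrix (Ix N) (Ix N) ℚ) :
    x + x = y ↔ x = (1 / 2 : ℚ) • y := by
  constructor
  · rintro rfl
    rw [← two_smul ℚ x, smul_smul]
    norm_num
  · rintro rfl
    rw [← two_smul ℚ ((1 / 2 : ℚ) • y), smul_smul]
    norm_num

/-- the generators, as units -/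
private noncomputable def Br_u {N : ℕ} {i j k l : Fin N} (h : i ≠ j) (h' : k ≠ l) :
    (Matrix (Ix N) (Ix N) ℚ)ˣ :=
  ⟨(1 / 2 : ℚ) • ((cE ℚ N i - cE ℚ N j) * (cE ℚ N k - cE ℚ N l)),
    (1 / 2 : ℚ) • ((cE ℚ N k - cE ℚ N l) * (cE ℚ N i - cE ℚ N j)), Br_inv h h', Br_inv h' h⟩

/-- the group generated by the units -/
private def Br_g (n N : ℕ) : Subgroup (Matrix (Ix N) (Ix N) ℚ)ˣ :=
  Subgroup.closure {x | ∃ i j k l : Fin N, i.1 < n ∧ j.1 < n ∧ k.1 < n ∧ l.1 < n ∧ i ≠ j ∧ k ≠ l ∧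
    (x : Matrix (Ix N) (Ix N) ℚ) = (1 / 2 : ℚ) •
      ((cE ℚ N i - cE ℚ N j) * (cE ℚ N k - cE ℚ N l))}

private theorem Br_fwd {n N : ℕ} (u : (Matrix (Ix N) (Ix N) ℚ)ˣ) (hu : u ∈ Br_g n N) :
    (show CMat N from u.1) ∈ twoAlt n N ∧ (show CMat N from u⁻¹.1) ∈ twoAlt n N := by
  refine Subgroup.closure_induction (p := fun u _ => (show CMat N from u.1) ∈ twoAlt n N ∧
    (show CMat N from u⁻¹.1) ∈ twoAlt n N) ?_ ?_ ?_ ?_ hu
  · rintro x ⟨i, j, k, l, hi, hj, hk, hl, h, h', hx⟩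
    constructor
    · refine Submonoid.subset_closure ⟨i, j, k, l, hi, hj, hk, hl, h, h', ?_⟩
      exact (Br_half _ _).2 hx
    · refine Submonoid.subset_closure ⟨k, l, i, j, hk, hl, hi, hj, h', h, ?_⟩
      refine (Br_half _ _).2 ?_
      have h1 : x = Br_u h h' := Units.ext hx
      rw [h1]
      rfl
  · exact ⟨one_mem _, by
      have := one_mem (twoAlt n N)
      rw [inv_one]
      exact this⟩
  · rintro x y _ _ ⟨h1, h2⟩ ⟨h3, h4⟩
    refine ⟨mul_mem h1 h3, ?_⟩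
    rw [_root_.mul_inv_rev]
    exact mul_mem h4 h2
  · rintro x _ ⟨h1, h2⟩
    refine ⟨h2, ?_⟩
    rw [inv_inv]
    exact h1

private theorem Br_bwd {n N : ℕ} (x : CMat N) (hx : x ∈ twoAlt n N) :
    ∃ u ∈ Br_g n N, (u.1 : Matrix (Ix N) (Ix N) ℚ) = x := by
  refine Submonoid.closure_induction (motive := fun x _ => ∃ u ∈ Br_g n N,
    (u.1 : Matrix (Ix N) (Ix N) ℚ) = x) ?_ ?_ ?_ hx
  · rintro x ⟨i, j, k, l, hi, hj, hk, hl, h, h', hx⟩
    have h1 := (Br_half (N := N) _ _).1 hx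
    exact ⟨Br_u h h', Subgroup.subset_closure ⟨i, j, k, l, hi, hj, hk, hl, h, h', rfl⟩, h1.symm⟩
  · exact ⟨1, one_mem _, rfl⟩
  · rintro x y _ _ ⟨u, hu, rfl⟩ ⟨w, hw, rfl⟩
    exact ⟨u * w, mul_mem hu hw, rfl⟩

private theorem Br_top (N : ℕ) : Br_g N N = dAlt N := by
  unfold Br_g dAlt
  congr 1
  ext x
  constructor
  · rintro ⟨i, j, k, l, -, -, -, -, h⟩
    exact ⟨i, j, k, l, h⟩
  · rintro ⟨i, j, k, l, h⟩
    exact ⟨i, j, k, l, i.2, j.2, k.2, l.2, h⟩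

theorem exists_dAlt_hom {n : ℕ} {H : Type} [Group H] (χ : H →* CMat n)
    (h : ∀ x, x ∈ twoAlt n n ↔ ∃ g, χ g = x) : ∃ ψ : H →* dAlt n, Function.Surjective ψ ∧
      ∀ g, (((ψ g).1 : Matrix (Ix n) (Ix n) ℚ) : CMat n) = χ g := by
  have hu : ∀ g, (χ.toHomUnits g : (Matrix (Ix n) (Ix n) ℚ)ˣ) ∈ dAlt n := by
    intro g
    obtain ⟨u, hu, hx⟩ := Br_bwd _ ((h _).2 ⟨g, rfl⟩)
    rw [Br_top] at hu
    have h1 : (χ.toHomUnits g : (Matrix (Ix n) (Ix n) ℚ)ˣ) = u := Units.ext hx.symm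
    rw [h1]
    exact hu
  let ψ : H →* dAlt n :=
    { toFun := fun g => ⟨(χ.toHomUnits g : (Matrix (Ix n) (Ix n) ℚ)ˣ), hu g⟩
      map_one' := by
        apply Subtype.ext
        apply Units.ext
        exact map_one χ
      map_mul' := fun a b => by
        apply Subtype.ext
        apply Units.ext
        exact map_mul χ a b }
  have hψ : ∀ g, (((ψ g).1 : (Matrix (Ix n) (Ix n) ℚ)ˣ).1 : CMat n) = χ g := fun g => rfl
  refine ⟨ψ, ?_, hψ⟩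
  intro y
  have hy : y.1 ∈ Br_g n n := by
    rw [Br_top]
    exact y.2
  obtain ⟨g, hg⟩ := (h _).1 (Br_fwd _ hy).1
  refine ⟨g, ?_⟩
  apply Subtype.ext
  apply Units.ext
  exact (hψ g).trans hg

end DC83
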