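import Pool.Agent.H.MP_83e36b_nt.re.Em

/-! A lift of the symmetric group `S_n` to `2.A_(4n)`. -/

set_option autoImplicit false

open Matrix

namespace DC83

/-- an even permutation which maps the second half onto the first half -/
private theorem Lf_W (m : ℕ) (hm : 2 ≤ m) : ∃ W : Equiv.Perm (Fin (m + m)),
    Equiv.Perm.sign W = 1 ∧ ∀ i : Fin m, W (Fin.natAdd m i) = Fin.castAdd m i := by
  have h0 : ∀ i : Fin m, (finSumFinEquiv.permCongr (Equiv.sumComm (Fin m) (Fin m)))
      (Fin.natAdd m i) = Fin.castAdd m i := by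
    intro i
    rw [Equiv.permCongr_apply, finSumFinEquiv_symm_apply_natAdd, Equiv.sumComm_apply, Sum.swap_inr,
      finSumFinEquiv_apply_left]
  rcases Int.units_eq_one_or
    (Equiv.Perm.sign (finSumFinEquiv.permCongr (Equiv.sumComm (Fin m) (Fin m)))) with h | h
  · exact ⟨_, h, h0⟩
  · have hne : (⟨0, by omega⟩ : Fin m) ≠ ⟨1, by omega⟩ := by
      intro h
      have := congrArg Fin.val h
      simp at this
    refine ⟨finSumFinEquiv.permCongr (Equiv.sumComm (Fin m) (Fin m)) *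
      bP (Equiv.swap ⟨0, by omega⟩ ⟨1, by omega⟩) 1, ?_, fun i => ?_⟩
    · rw [Equiv.Perm.sign_mul, h, sign_bP, Equiv.Perm.sign_swap hne, Equiv.Perm.sign_one]
      decide
    · rw [Equiv.Perm.mul_apply, bP_natAdd, Equiv.Perm.one_apply, h0]

private theorem Lf_comm {m : ℕ} {y : dAlt (m + m)}
    (hy : ∀ i : Fin m, pi (m + m) y (Fin.castAdd m i) = Fin.castAdd m i) {x : dAlt (m + m)}
    (hx : x ∈ dAltIn m m) : y * x = x * y := by
  have h1 : ∀ i : Fin m, (y.1 : Matrix (Ix (m + m)) (Ix (m + m)) ℚ) * cE ℚ (m + m) (Fin.castAdd m i) =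
      cE ℚ (m + m) (Fin.castAdd m i) * (y.1 : Matrix (Ix (m + m)) (Ix (m + m)) ℚ) := by
    intro i
    rw [dAlt_conj, hy]
  have h2 : dAltIn m m ≤ Subgroup.centralizer {y} := by
    unfold dAltIn
    rw [Subgroup.closure_le]
    rintro z ⟨i, j, k, l, -, -, hz⟩
    rw [SetLike.mem_coe, Subgroup.mem_centralizer_iff]
    intro g hg
    rw [Set.mem_singleton_iff.1 hg]
    apply Subtype.ext
    apply Units.ext
    rw [Subgroup.coe_mul, Subgroup.coe_mul, Units.val_mul, Units.val_mul, hz]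
    have e1 : ∀ a b : Fin m, (y.1 : Matrix (Ix (m + m)) (Ix (m + m)) ℚ) *
        (cE ℚ (m + m) (Fin.castAdd m a) - cE ℚ (m + m) (Fin.castAdd m b)) =
        (cE ℚ (m + m) (Fin.castAdd m a) - cE ℚ (m + m) (Fin.castAdd m b)) *
          (y.1 : Matrix (Ix (m + m)) (Ix (m + m)) ℚ) := by
      intro a b
      rw [mul_sub, sub_mul, h1, h1]
    rw [Matrix.mul_smul, Matrix.smul_mul, ← mul_assoc, e1, mul_assoc, e1, ← mul_assoc]
  exact Subgroup.mem_centralizer_iff.1 (h2 hx) y rfl

private theorem Lf_central {N : ℕ} {c : dAlt N} (hc : pi N c = 1) :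
    (∀ x : dAlt N, c * x = x * c) ∧ c * c = 1 := by
  rcases pi_ker hc with h | h
  · have : c = 1 := by
      apply Subtype.ext
      apply Units.ext
      rw [h]
      rfl
    rw [this]
    exact ⟨fun x => by rw [one_mul, mul_one], one_mul _⟩
  · refine ⟨fun x => ?_, ?_⟩
    · apply Subtype.ext
      apply Units.ext
      rw [Subgroup.coe_mul, Subgroup.coe_mul, Units.val_mul, Units.val_mul, h, neg_mul, mul_neg,
        one_mul, mul_one]
    · apply Subtype.ext
      apply Units.ext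
      rw [Subgroup.coe_mul, Units.val_mul, h, neg_mul, mul_neg, neg_neg, one_mul]
      rfl

/-- Proof: `N = (n + n) + (n + n)` (`n = 0` is allowed).  Let `j : dAlt (n + n) →* dAlt N` be the embedding
(`exists_jemb (n + n) (n + n)`).  For `σ : Equiv.Perm (Fin n)` the permutation `bP σ σ` of `Fin (n + n)` is
even (`sign_bP`), so there is `x' σ : dAlt (n + n)` with `pi (n + n) (x' σ) = bP σ σ` (`exists_pi`); let
`x σ = j (x' σ)`, `pi N (x σ) = bP (bP σ σ) 1`.  Let `W` be the permutation of `Fin N` which swaps the two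
halves; it is the product of `n + n` transpositions, so even (e.g. it is `finSumFinEquiv.permCongr
(Equiv.sumComm _ _)`, whose sign is `(-1)^((n+n)*(n+n))`-like: or take instead of `W`
any even permutation which interchanges the halves: if the swap `W` had sign `-1`, multiply by
an odd permutation of the first half; or avoid the computation: for any `W`, either `W` or
`W * bP (Equiv.swap 0 1) 1` is even when `n + n ≥ 2`, and for `n = 0` everything is trivial - but then
`y σ` below has the permutation `1` on the first half and a conjugate of `bP σ σ` on the second,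
which is enough).  Let `w : dAlt N` with `pi N w = W`, `y σ = w * x σ * w⁻¹`; `pi N (y σ) =
W * bP (bP σ σ) 1 * W⁻¹` fixes the first half pointwise.  `x σ * x τ = ± x (σ * τ)` (`pi_ker` applied to
`(x (σ * τ))⁻¹ * (x σ * x τ)`), and `y σ * y τ = ± y (σ * τ)` with the same sign (conjugate by `w`; `-1` is
central).  `y τ` commutes with `x σ`: `x σ ∈ dAltIn (n + n) (n + n)` (range of `j`), and `y τ` commutes
with the generators of this subgroup by `dAlt_conj` (closure induction).  So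
`L σ = x σ * y σ` is multiplicative: `x σ y σ x τ y τ = (x σ x τ) (y σ y τ) = x (σ τ) y (σ τ)` (the signs
cancel).  On an index `i < n`: `pi N (L σ) i = pi N (x σ) (pi N (y σ) i) = pi N (x σ) i = σ i`. -/
theorem exists_lift (n : ℕ) : ∃ (N : ℕ) (L : Equiv.Perm (Fin n) →* dAlt N), n ≤ N ∧
    ∀ (σ : Equiv.Perm (Fin n)) (i : Fin n) (h : i.1 < N), (pi N (L σ) ⟨i.1, h⟩).1 = (σ i).1 := by
  rcases Nat.eq_zero_or_pos n with rfl | hn
  · exact ⟨0, 1, le_rfl, fun σ i => i.elim0⟩
  obtain ⟨j, -, hj2, hj3⟩ := exists_jemb (n + n) (n + n)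
  obtain ⟨W, hW1, hW2⟩ := Lf_W (n + n) (by omega)
  obtain ⟨w, hw⟩ := exists_pi hW1
  have hx : ∀ σ : Equiv.Perm (Fin n), ∃ x : dAlt (n + n), pi (n + n) x = bP σ σ := by
    intro σ
    apply exists_pi
    rw [sign_bP]
    exact Int.units_mul_self _
  choose x' hx' using hx
  have px : ∀ σ, pi (n + n + (n + n)) (j (x' σ)) = bP (bP σ σ) 1 := fun σ => by rw [hj3, hx']
  have mx : ∀ σ, j (x' σ) ∈ dAltIn (n + n) (n + n) := fun σ => hj2 ▸ ⟨x' σ, rfl⟩
  generalize hX : (fun σ => j (x' σ)) = X at *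
  have hX' : ∀ σ, j (x' σ) = X σ := fun σ => congrFun hX σ
  simp only [hX'] at px mx
  have py : ∀ σ, ∀ i : Fin (n + n), pi (n + n + (n + n)) (w * X σ * w⁻¹) (Fin.castAdd (n + n) i) =
      Fin.castAdd (n + n) i := by
    intro σ i
    have e1 : W⁻¹ (Fin.castAdd (n + n) i) = Fin.natAdd (n + n) i := by
      rw [Equiv.Perm.inv_eq_iff_eq, hW2]
    rw [map_mul, map_mul, map_inv, hw, px, Equiv.Perm.mul_apply, Equiv.Perm.mul_apply, e1, bP_natAdd,
      Equiv.Perm.one_apply, hW2]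
  have hc : ∀ σ τ, pi (n + n + (n + n)) ((X (σ * τ))⁻¹ * (X σ * X τ)) = 1 := by
    intro σ τ
    rw [map_mul, map_mul, map_inv, px, px, px, bP_mul, bP_mul, one_mul]
    exact inv_mul_cancel _
  have hm : ∀ σ τ, X (σ * τ) * (w * X (σ * τ) * w⁻¹) = X σ * (w * X σ * w⁻¹) * (X τ * (w * X τ * w⁻¹)) := by
    intro σ τ
    obtain ⟨c1, c2⟩ := Lf_central (hc σ τ)
    generalize hcc : (X (σ * τ))⁻¹ * (X σ * X τ) = c at c1 c2
    have e1 : X σ * X τ = X (σ * τ) * c := by rw [← hcc]; group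
    have e2 := Lf_comm (py σ) (mx τ)
    have e3 : (w * X σ * w⁻¹) * (w * X τ * w⁻¹) = (w * X (σ * τ) * w⁻¹) * c := by
      have : (w * X σ * w⁻¹) * (w * X τ * w⁻¹) = w * (X σ * X τ) * w⁻¹ := by group
      rw [this, e1, mul_assoc w, mul_assoc (X (σ * τ)), c1]
      simp only [mul_assoc]
    calc X (σ * τ) * (w * X (σ * τ) * w⁻¹)
        = X (σ * τ) * (w * X (σ * τ) * w⁻¹) * (c * c) := by rw [c2, mul_one]
      _ = X (σ * τ) * ((w * X (σ * τ) * w⁻¹) * c) * c := by simp only [mul_assoc]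
      _ = X (σ * τ) * (c * (w * X (σ * τ) * w⁻¹)) * c := by rw [c1]
      _ = (X (σ * τ) * c) * ((w * X (σ * τ) * w⁻¹) * c) := by simp only [mul_assoc]
      _ = (X σ * X τ) * ((w * X σ * w⁻¹) * (w * X τ * w⁻¹)) := by rw [e1, e3]
      _ = X σ * (X τ * (w * X σ * w⁻¹)) * (w * X τ * w⁻¹) := by simp only [mul_assoc]
      _ = X σ * ((w * X σ * w⁻¹) * X τ) * (w * X τ * w⁻¹) := by rw [e2]
      _ = X σ * (w * X σ * w⁻¹) * (X τ * (w * X τ * w⁻¹)) := by simp only [mul_assoc]
  refine ⟨n + n + (n + n), MonoidHom.mk' (fun σ => X σ * (w * X σ * w⁻¹)) hm, by omega, ?_⟩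
  intro σ i h
  have e1 : (⟨i.1, h⟩ : Fin (n + n + (n + n))) = Fin.castAdd (n + n) (Fin.castAdd n i) := by
    ext; rfl
  have e2 : MonoidHom.mk' (fun σ => X σ * (w * X σ * w⁻¹)) hm σ = X σ * (w * X σ * w⁻¹) := rfl
  rw [e1, e2, map_mul, Equiv.Perm.mul_apply, py, px, bP_castAdd, bP_castAdd]
  rfl

end DC83
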