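import Pool.Agent.H.MP_83e36b_nt.re.Cj

/-! Homomorphisms from `2.A_n`. -/

set_option autoImplicit false

open Matrix

namespace DC83

private theorem Pf_sq {n : ℕ} {i j : Fin n} (h : i ≠ j) :
    (cE ℚ n i - cE ℚ n j) * (cE ℚ n i - cE ℚ n j) = (2 : ℚ) • 1 := by
  have h1 := cE_anti ℚ n h
  rw [sub_mul, mul_sub, mul_sub, cE_sq, cE_sq, h1, two_smul]
  abel

private theorem Pf_inv {n : ℕ} {i j k l : Fin n} (h : i ≠ j) (h' : k ≠ l) :
    ((1 / 2 : ℚ) • ((cE ℚ n i - cE ℚ n j) * (cE ℚ n k - cE ℚ n l))) *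
      ((1 / 2 : ℚ) • ((cE ℚ n k - cE ℚ n l) * (cE ℚ n i - cE ℚ n j))) = 1 := by
  have e1 := Pf_sq h
  have e2 := Pf_sq h'
  generalize cE ℚ n i - cE ℚ n j = a at *
  generalize cE ℚ n k - cE ℚ n l = b at *
  have e3 : a * b * (b * a) = (4 : ℚ) • 1 := by
    calc a * b * (b * a) = a * (b * b) * a := by simp only [mul_assoc]
      _ = (2 : ℚ) • (a * a) := by
          rw [e2, Matrix.mul_smul, mul_one, Matrix.smul_mul]
      _ = (4 : ℚ) • 1 := by rw [e1, smul_smul]; norm_num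
  rw [Matrix.smul_mul, Matrix.mul_smul, e3, smul_smul, smul_smul]
  norm_num

/-- the elements of `dAlt n` -/
private theorem Pf_mk {n : ℕ} {i j k l : Fin n} (h : i ≠ j) (h' : k ≠ l) :
    ∃ x : dAlt n, (x.1 : Matrix (Ix n) (Ix n) ℚ) =
      (1 / 2 : ℚ) • ((cE ℚ n i - cE ℚ n j) * (cE ℚ n k - cE ℚ n l)) := by
  let u : (Matrix (Ix n) (Ix n) ℚ)ˣ :=
    ⟨(1 / 2 : ℚ) • ((cE ℚ n i - cE ℚ n j) * (cE ℚ n k - cE ℚ n l)),
      (1 / 2 : ℚ) • ((cE ℚ n k - cE ℚ n l) * (cE ℚ n i - cE ℚ n j)),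
      Pf_inv h h', Pf_inv h' h⟩
  exact ⟨⟨u, Subgroup.subset_closure ⟨i, j, k, l, h, h', rfl⟩⟩, rfl⟩

/-- the order of `(1/2) (e_i - e_j) (e_j - e_k)` is three -/
private theorem Pf_cube {n : ℕ} {i j k : Fin n} (h : i ≠ j) (h' : j ≠ k) (h'' : i ≠ k) :
    ((1 / 2 : ℚ) • ((cE ℚ n i - cE ℚ n j) * (cE ℚ n j - cE ℚ n k))) *
      ((1 / 2 : ℚ) • ((cE ℚ n i - cE ℚ n j) * (cE ℚ n j - cE ℚ n k))) *
      ((1 / 2 : ℚ) • ((cE ℚ n i - cE ℚ n j) * (cE ℚ n j - cE ℚ n k))) = 1 := by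
  have e1 := Pf_sq h
  have e2 := Pf_sq h'
  have e3 : (cE ℚ n j - cE ℚ n k) * (cE ℚ n i - cE ℚ n j) =
      -((cE ℚ n i - cE ℚ n j) * (cE ℚ n j - cE ℚ n k)) - (2 : ℚ) • 1 := by
    have h1 := cE_anti ℚ n h.symm
    have h2 := cE_anti ℚ n h''.symm
    have h3 := cE_anti ℚ n h'.symm
    rw [sub_mul, mul_sub, mul_sub, sub_mul, mul_sub, mul_sub, h1, h2, h3, cE_sq, two_smul]
    abel
  generalize cE ℚ n i - cE ℚ n j = a at *
  generalize cE ℚ n j - cE ℚ n k = b at *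
  have e4 : a * b * (a * b) = -((2 : ℚ) • (a * b)) - (4 : ℚ) • 1 := by
    calc a * b * (a * b) = a * (b * a) * b := by simp only [mul_assoc]
      _ = -(a * a * (b * b)) - (2 : ℚ) • (a * b) := by
          rw [e3, mul_sub, sub_mul, mul_neg, neg_mul, Matrix.mul_smul, mul_one, Matrix.smul_mul]
          simp only [mul_assoc]
      _ = -((2 : ℚ) • (a * b)) - (4 : ℚ) • 1 := by
          rw [e1, e2, Matrix.smul_mul, one_mul, smul_smul]
          norm_num
          abel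
  generalize a * b = c at *
  have e5 : c * c * c = (8 : ℚ) • 1 := by
    rw [e4, sub_mul, neg_mul, Matrix.smul_mul, Matrix.smul_mul, one_mul, e4]
    module
  have e6 : ((1 / 2 : ℚ) • c) * ((1 / 2 : ℚ) • c) * ((1 / 2 : ℚ) • c) = (1 / 8 : ℚ) • (c * c * c) := by
    simp only [Matrix.smul_mul, Matrix.mul_smul, smul_smul]
    norm_num
  rw [e6, e5]
  module

private theorem Pf_neg_ne {N : ℕ} : (-1 : Matrix (Ix N) (Ix N) ℚ) ≠ 1 := by
  intro h
  have h2 := congrFun (congrFun h 0) 0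
  rw [Matrix.neg_apply, Matrix.one_apply_eq] at h2
  norm_num at h2

/-- Two homomorphisms from `2.A_n` (`n ≥ 4`) to `2.A_N` with the same permutations are equal. -/
theorem dAlt_hom_ext {n N : ℕ} (hn : 4 ≤ n) (f g : dAlt n →* dAlt N)
    (h : ∀ x, pi N (f x) = pi N (g x)) : f = g := by
  have hF : ∀ x, ((f x).1 : Matrix (Ix N) (Ix N) ℚ) = (g x).1 ∨
      ((f x).1 : Matrix (Ix N) (Ix N) ℚ) = -((g x).1 : Matrix (Ix N) (Ix N) ℚ) := by
    intro x
    have h1 : pi N ((g x)⁻¹ * f x) = 1 := by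
      rw [map_mul, map_inv, h, inv_mul_cancel]
    have h2 : ((f x).1 : Matrix (Ix N) (Ix N) ℚ) =
        ((g x).1 : Matrix (Ix N) (Ix N) ℚ) * ((((g x)⁻¹ * f x : dAlt N).1 :
          (Matrix (Ix N) (Ix N) ℚ)ˣ) : Matrix (Ix N) (Ix N) ℚ) := by
      have h3 : f x = g x * ((g x)⁻¹ * f x) := by group
      conv_lhs => rw [h3]
      rfl
    rcases pi_ker h1 with h3 | h3
    · left
      rw [h2, h3, mul_one]
    · right
      rw [h2, h3, mul_neg, mul_one]
  have hmulF : ∀ x y, ((f (x * y)).1 : Matrix (Ix N) (Ix N) ℚ) =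
      ((f x).1 : Matrix (Ix N) (Ix N) ℚ) * (f y).1 := fun x y => by rw [map_mul]; rfl
  have hmulG : ∀ x y, ((g (x * y)).1 : Matrix (Ix N) (Ix N) ℚ) =
      ((g x).1 : Matrix (Ix N) (Ix N) ℚ) * (g y).1 := fun x y => by rw [map_mul]; rfl
  have hext : ∀ x, ((f x).1 : Matrix (Ix N) (Ix N) ℚ) = (g x).1 → f x = g x := fun x hx =>
    Subtype.ext (Units.ext hx)
  -- squares
  have hsq : ∀ x, f (x * x) = g (x * x) := fun x => by
    apply hext
    rw [hmulF, hmulG]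
    rcases hF x with h1 | h1
    · rw [h1]
    · rw [h1, neg_mul_neg]
  -- elements of order three
  have hcube : ∀ x : dAlt n, x * x * x = 1 → f x = g x := fun x hx => by
    rcases hF x with h1 | h1
    · exact hext x h1
    · exfalso
      have h2 := congrArg (fun y => ((f y).1 : Matrix (Ix N) (Ix N) ℚ)) hx
      have h3 := congrArg (fun y => ((g y).1 : Matrix (Ix N) (Ix N) ℚ)) hx
      simp only [hmulF, hmulG, map_one] at h2 h3
      rw [h1, neg_mul_neg, mul_neg, h3] at h2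
      exact Pf_neg_ne h2
  let T : Matrix (Ix n) (Ix n) ℚ → Prop := fun M =>
    ∃ x : dAlt n, (x.1 : Matrix (Ix n) (Ix n) ℚ) = M ∧ f x = g x
  have hTmul : ∀ M M', T M → T M' → T (M * M') := by
    rintro _ _ ⟨x, rfl, hx⟩ ⟨y, rfl, hy⟩
    exact ⟨x * y, rfl, by rw [map_mul, map_mul, hx, hy]⟩
  have hT3 : ∀ i j k : Fin n, i ≠ j → j ≠ k → i ≠ k →
      T ((1 / 2 : ℚ) • ((cE ℚ n i - cE ℚ n j) * (cE ℚ n j - cE ℚ n k))) := by
    intro i j k hij hjk hik
    obtain ⟨x, hx⟩ := Pf_mk hij hjk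
    refine ⟨x, hx, hcube x ?_⟩
    apply Subtype.ext
    apply Units.ext
    show (x.1 : Matrix (Ix n) (Ix n) ℚ) * x.1 * x.1 = 1
    rw [hx]
    exact Pf_cube hij hjk hik
  -- distinct indices
  have hT4 : ∀ i j k l : Fin n, i ≠ j → k ≠ l → j ≠ k → i ≠ k → j ≠ l →
      T ((1 / 2 : ℚ) • ((cE ℚ n i - cE ℚ n j) * (cE ℚ n k - cE ℚ n l))) := by
    intro i j k l hij hkl hjk hik hjl
    have h1 := hTmul _ _ (hT3 i j k hij hjk hik) (hT3 j k l hjk hkl hjl)
    have h2 := Pf_sq hjk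
    have h3 : ((1 / 2 : ℚ) • ((cE ℚ n i - cE ℚ n j) * (cE ℚ n j - cE ℚ n k))) *
        ((1 / 2 : ℚ) • ((cE ℚ n j - cE ℚ n k) * (cE ℚ n k - cE ℚ n l))) =
        (1 / 2 : ℚ) • ((cE ℚ n i - cE ℚ n j) * (cE ℚ n k - cE ℚ n l)) := by
      generalize cE ℚ n i - cE ℚ n j = a at *
      generalize cE ℚ n j - cE ℚ n k = b at *
      generalize cE ℚ n k - cE ℚ n l = c at *
      have h4 : a * b * (b * c) = (2 : ℚ) • (a * c) := by
        calc a * b * (b * c) = a * (b * b) * c := by simp only [mul_assoc]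
          _ = (2 : ℚ) • (a * c) := by rw [h2, Matrix.mul_smul, mul_one, Matrix.smul_mul]
      rw [Matrix.smul_mul, Matrix.mul_smul, h4]
      module
    rwa [h3] at h1
  -- minus one
  have hT1 : T 1 := ⟨1, rfl, by rw [map_one, map_one]⟩
  have hTneg1 : T (-1) := by
    obtain ⟨x, hx⟩ := Pf_mk (n := n) (i := ⟨0, by omega⟩) (j := ⟨1, by omega⟩)
      (k := ⟨2, by omega⟩) (l := ⟨3, by omega⟩) (by simp) (by simp)
    refine ⟨x * x, ?_, hsq x⟩
    show (x.1 : Matrix (Ix n) (Ix n) ℚ) * x.1 = -1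
    rw [hx]
    have e1 := Pf_sq (n := n) (i := ⟨0, by omega⟩) (j := ⟨1, by omega⟩) (by simp)
    have e2 := Pf_sq (n := n) (i := ⟨2, by omega⟩) (j := ⟨3, by omega⟩) (by simp)
    have e3 : (cE ℚ n ⟨2, by omega⟩ - cE ℚ n ⟨3, by omega⟩) *
        (cE ℚ n ⟨0, by omega⟩ - cE ℚ n ⟨1, by omega⟩) =
        -((cE ℚ n ⟨0, by omega⟩ - cE ℚ n ⟨1, by omega⟩) *
          (cE ℚ n ⟨2, by omega⟩ - cE ℚ n ⟨3, by omega⟩)) := by
      have h1 := cE_anti ℚ n (i := ⟨2, by omega⟩) (j := ⟨0, by omega⟩) (by simp)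
      have h2 := cE_anti ℚ n (i := ⟨2, by omega⟩) (j := ⟨1, by omega⟩) (by simp)
      have h3 := cE_anti ℚ n (i := ⟨3, by omega⟩) (j := ⟨0, by omega⟩) (by simp)
      have h4 := cE_anti ℚ n (i := ⟨3, by omega⟩) (j := ⟨1, by omega⟩) (by simp)
      rw [sub_mul, mul_sub, mul_sub, sub_mul, mul_sub, mul_sub, h1, h2, h3, h4]
      abel
    generalize cE ℚ n ⟨0, by omega⟩ - cE ℚ n ⟨1, by omega⟩ = a at *
    generalize cE ℚ n ⟨2, by omega⟩ - cE ℚ n ⟨3, by omega⟩ = b at *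
    have e4 : a * b * (a * b) = -((4 : ℚ) • 1) := by
      calc a * b * (a * b) = a * (b * a) * b := by simp only [mul_assoc]
        _ = -(a * a * (b * b)) := by
            rw [e3, mul_neg, neg_mul]
            simp only [mul_assoc]
        _ = -((4 : ℚ) • 1) := by
            rw [e1, e2, Matrix.smul_mul, one_mul, smul_smul]
            norm_num
    rw [Matrix.smul_mul, Matrix.mul_smul, e4]
    module
  have hTneg : ∀ M, T M → T (-M) := fun M hM => by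
    have h1 := hTmul _ _ hTneg1 hM
    rwa [neg_one_mul] at h1
  -- the generators
  have hgen : ∀ i j k l : Fin n, i ≠ j → k ≠ l →
      T ((1 / 2 : ℚ) • ((cE ℚ n i - cE ℚ n j) * (cE ℚ n k - cE ℚ n l))) := by
    intro i j k l hij hkl
    by_cases hjk : j = k
    · subst hjk
      by_cases hil : i = l
      · subst hil
        have h1 : (1 / 2 : ℚ) • ((cE ℚ n i - cE ℚ n j) * (cE ℚ n j - cE ℚ n i)) = -1 := by
          rw [← neg_sub (cE ℚ n i) (cE ℚ n j), mul_neg, Pf_sq hij]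
          module
        rw [h1]
        exact hTneg1
      · exact hT3 i j l hij hkl hil
    · by_cases hik : i = k
      · subst hik
        by_cases hjl : j = l
        · subst hjl
          have h1 : (1 / 2 : ℚ) • ((cE ℚ n i - cE ℚ n j) * (cE ℚ n i - cE ℚ n j)) = 1 := by
            rw [Pf_sq hij]
            module
          rw [h1]
          exact hT1
        · have h1 := hTneg _ (hT3 j i l hij.symm hkl hjl)
          have h2 : -((1 / 2 : ℚ) • ((cE ℚ n j - cE ℚ n i) * (cE ℚ n i - cE ℚ n l))) =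
              (1 / 2 : ℚ) • ((cE ℚ n i - cE ℚ n j) * (cE ℚ n i - cE ℚ n l)) := by
            rw [← neg_sub (cE ℚ n i) (cE ℚ n j), neg_mul]
            module
          rwa [h2] at h1
      · by_cases hjl : j = l
        · subst hjl
          have h1 := hTneg _ (hT3 i j k hij hjk hik)
          have h2 : -((1 / 2 : ℚ) • ((cE ℚ n i - cE ℚ n j) * (cE ℚ n j - cE ℚ n k))) =
              (1 / 2 : ℚ) • ((cE ℚ n i - cE ℚ n j) * (cE ℚ n k - cE ℚ n j)) := by
            rw [← neg_sub (cE ℚ n k) (cE ℚ n j), mul_neg]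
            module
          rwa [h2] at h1
        · exact hT4 i j k l hij hkl hjk hik hjl
  refine MonoidHom.ext fun x => ?_
  obtain ⟨x, hx⟩ := x
  have key : ∀ y : (Matrix (Ix n) (Ix n) ℚ)ˣ, y ∈ dAlt n → T (y : Matrix (Ix n) (Ix n) ℚ) := by
    intro y hy
    refine Subgroup.closure_induction (p := fun (y : (Matrix (Ix n) (Ix n) ℚ)ˣ) _ =>
      T (y : Matrix (Ix n) (Ix n) ℚ)) ?_ ?_ ?_ ?_ hy
    · rintro y ⟨i, j, k, l, h1, h2, h3⟩
      rw [h3]
      exact hgen i j k l h1 h2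
    · exact hT1
    · intro a b _ _ h1 h2
      rw [Units.val_mul]
      exact hTmul _ _ h1 h2
    · rintro a _ ⟨z, hz, hz'⟩
      refine ⟨z⁻¹, ?_, by rw [map_inv, map_inv, hz']⟩
      have h1 : z.1 = a := Units.ext hz
      rw [Subgroup.coe_inv, h1]
  obtain ⟨z, hz, hz'⟩ := key x hx
  have h1 : z = ⟨x, hx⟩ := Subtype.ext (Units.ext hz)
  rw [← h1]
  exact hz'

end DC83
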