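import Pool.Agent.H.MP_83e36b_nt.re.Em
import Pool.Agent.H.MP_83e36b_nt.re.Pf
import Pool.Agent.H.MP_83e36b_nt.re.Lf
import Pool.Agent.H.MP_83e36b_nt.re.Br
import Pool.Agent.H.MP_83e36b_nt.re.KDef

/-! Split extensions by `2.A_n` with the action through `S_n`. -/

set_option autoImplicit false

open Matrix

namespace DC83

private theorem As_bP {n m : ℕ} {L : Equiv.Perm (Fin n) →* dAlt (n + m)}
    (hL : ∀ (σ : Equiv.Perm (Fin n)) (i : Fin n) (h : i.1 < n + m),
      (pi (n + m) (L σ) ⟨i.1, h⟩).1 = (σ i).1) (σ : Equiv.Perm (Fin n)) :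
    ∃ τ, pi (n + m) (L σ) = bP σ τ := by
  have h1 : ∀ i, pi (n + m) (L σ) (Fin.castAdd m i) = Fin.castAdd m (σ i) := fun i =>
    Fin.ext (hL σ i (by have := i.2; omega))
  obtain ⟨σ', τ, h2⟩ := exists_bP (π := pi (n + m) (L σ)) (fun i => by
    constructor
    · intro h3
      obtain ⟨c, hc⟩ := σ.surjective ⟨_, h3⟩
      have h4 : pi (n + m) (L σ) (Fin.castAdd m c) = pi (n + m) (L σ) i := by
        rw [h1, hc]
        exact Fin.ext rfl
      rw [← (pi (n + m) (L σ)).injective h4]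
      exact c.2
    · intro h3
      have h4 := hL σ ⟨i.1, h3⟩ i.2
      rw [show (⟨i.1, i.2⟩ : Fin (n + m)) = i from rfl] at h4
      rw [h4]
      exact (σ _).2)
  have h3 : σ' = σ := Equiv.ext fun i => Fin.castAdd_injective n m (by
    rw [← bP_castAdd σ' τ, ← h2, h1])
  exact ⟨τ, by rw [h2, h3]⟩

/-- Proof: `φ g = j (ψ (g * (s (q g))⁻¹)) * L (π (s (q g)))`. -/
theorem KerAlt.exists_ker {n : ℕ} (hn : 4 ≤ n) {G A : Type} [Group G] [Group A] {q : G →* A}
    {s : A →* G} (hs : ∀ a, q (s a) = a) {χ : q.ker →* CMat n} {π : G →* Equiv.Perm (Fin n)}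
    (h : KerAlt n q χ π) : ∃ (m : ℕ) (φ : G →* dAlt (n + m)), KerTwoAlt q φ := by
  obtain ⟨N, L, hN, hL⟩ := exists_lift n
  obtain ⟨m, rfl⟩ := Nat.exists_eq_add_of_le hN
  obtain ⟨j, hj, hjr, hjp⟩ := exists_jemb n m
  obtain ⟨ψ, hψs, hψ⟩ := exists_dAlt_hom χ h.image
  have hψi : Function.Injective ψ := fun a b hab => h.inj (by rw [← hψ, ← hψ, hab])
  have hψp : ∀ x : q.ker, pi n (ψ x) = π x := fun x => Equiv.ext fun i =>
    pi_of_conj (by
      have h1 := h.nat x i
      rw [← hψ] at h1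
      exact h1)
  obtain ⟨e, he⟩ : ∃ e : q.ker ≃* dAlt n, ∀ x, e x = ψ x :=
    ⟨MulEquiv.ofBijective ψ ⟨hψi, hψs⟩, fun x => rfl⟩
  -- conjugation
  have key : ∀ (g : G) (x : q.ker), j (ψ (MulAut.conjNormal g x)) =
      L (π g) * j (ψ x) * (L (π g))⁻¹ := by
    intro g x
    have h1 := dAlt_hom_ext hn
      (j.comp (ψ.comp ((MulAut.conjNormal g).toMonoidHom.comp e.symm.toMonoidHom)))
      ((MulAut.conj (L (π g))).toMonoidHom.comp j) (fun y => by
        obtain ⟨x, rfl⟩ := e.surjective y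
        obtain ⟨τ, hτ⟩ := As_bP hL (π g)
        have h2 : (j.comp (ψ.comp ((MulAut.conjNormal g).toMonoidHom.comp e.symm.toMonoidHom)))
            (e x) = j (ψ (MulAut.conjNormal g x)) := by
          show j (ψ (MulAut.conjNormal g (e.symm (e x)))) = _
          rw [e.symm_apply_apply]
        have h3 : ((MulAut.conj (L (π g))).toMonoidHom.comp j) (e x) =
            L (π g) * j (ψ x) * (L (π g))⁻¹ := by
          rw [← he]
          rfl
        rw [h2, h3, hjp, hψp, map_mul, map_mul, map_inv, hτ, hjp, hψp, bP_inv, bP_mul, bP_mul,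
          mul_one, mul_inv_cancel]
        congr 1
        rw [MulAut.conjNormal_apply, map_mul, map_mul, map_inv])
    have h2 := DFunLike.congr_fun h1 (e x)
    have h3 : (j.comp (ψ.comp ((MulAut.conjNormal g).toMonoidHom.comp e.symm.toMonoidHom)))
        (e x) = j (ψ (MulAut.conjNormal g x)) := by
      show j (ψ (MulAut.conjNormal g (e.symm (e x)))) = _
      rw [e.symm_apply_apply]
    rw [h3] at h2
    rw [h2, ← he]
    rfl
  have hk : ∀ g : G, g * (s (q g))⁻¹ ∈ q.ker := fun g => by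
    rw [MonoidHom.mem_ker, map_mul, map_inv, hs, mul_inv_cancel]
  obtain ⟨c, hc⟩ : ∃ c : G → q.ker, ∀ g, (c g : G) = g * (s (q g))⁻¹ :=
    ⟨fun g => ⟨_, hk g⟩, fun g => rfl⟩
  obtain ⟨φ, hφ⟩ : ∃ φ : G →* dAlt (n + m), ∀ g, φ g = j (ψ (c g)) * L (π (s (q g))) := by
    refine ⟨MonoidHom.mk' (fun g => j (ψ (c g)) * L (π (s (q g)))) fun a b => ?_, fun g => rfl⟩
    have h1 : c (a * b) = c a * MulAut.conjNormal (s (q a)) (c b) := by
      apply Subtype.ext
      rw [Subgroup.coe_mul, MulAut.conjNormal_apply, hc, hc, hc, map_mul, map_mul, _root_.mul_inv_rev]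
      group
    rw [h1, map_mul, map_mul, key, map_mul q, map_mul s, map_mul π, map_mul L]
    group
  refine ⟨m, φ, ⟨fun g hg hg' => ?_, ?_⟩⟩
  · have h1 : (c g : G) = g := by rw [hc, hg, map_one, inv_one, mul_one]
    rw [hφ, hg, map_one, map_one, map_one, mul_one] at hg'
    have h2 : c g = 1 := hψi (hj (by rw [hg', map_one, map_one]))
    rw [← h1, h2]
    rfl
  · rw [← hjr]
    ext x
    constructor
    · rintro ⟨g, hg, rfl⟩
      have hg1 : q g = 1 := hg
      exact ⟨ψ (c g), by rw [hφ, hg1, map_one, map_one, map_one, mul_one]⟩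
    · rintro ⟨y, rfl⟩
      obtain ⟨z, rfl⟩ := hψs y
      have hz : q (z : G) = 1 := z.2
      refine ⟨z, z.2, ?_⟩
      have h1 : c (z : G) = z := Subtype.ext (by rw [hc, hz, map_one, inv_one, mul_one])
      rw [hφ, hz, map_one, map_one, map_one, mul_one, h1]

end DC83
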