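import Pool.Agent.H.MP_83e36b_nt.dc.Perm
import Pool.Agent.H.MP_83e36b_nt.td.DDef
import Pool.Agent.H.MP_83e36b_nt.td.Blk

/-! The conjugation action of the double cover `2.A_n` on the Clifford algebra. -/

set_option autoImplicit false

open Matrix

namespace DC83

variable {n : ℕ}

private theorem Cj_single {R : Type*} [CommRing R] (σ : Equiv.Perm (Fin n)) (i : Fin n) :
    pM R σ⁻¹ *ᵥ Pi.single i (1 : R) = Pi.single (σ i) 1 := by
  ext j
  rw [pM_mulVec, Pi.single_apply, Pi.single_apply]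
  congr 1
  exact propext Equiv.Perm.inv_eq_iff_eq

private theorem Cj_cE_inj {i j : Fin n} (h : cE ℚ n i = cE ℚ n j) : i = j := by
  by_contra hij
  have h1 := cE_anti ℚ n hij
  rw [h, cE_sq] at h1
  have h2 := congrFun (congrFun h1 0) 0
  rw [Matrix.neg_apply, Matrix.one_apply_eq] at h2
  norm_num at h2

/-- `x e_i = e_(π x i) x` -/
theorem dAlt_conj (x : dAlt n) (i : Fin n) :
    (x.1 : Matrix (Ix n) (Ix n) ℚ) * cE ℚ n i = cE ℚ n (pi n x i) * (x.1 : Matrix (Ix n) (Ix n) ℚ) := by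
  have h := (spn_pi (AlgebraicClosure ℚ) x).conj (Pi.single i 1)
  rw [Cj_single, cV_single, cV_single, ← cE_map _ _ (Rat.castHom (AlgebraicClosure ℚ)),
    ← cE_map _ _ (Rat.castHom (AlgebraicClosure ℚ)), ← Matrix.map_mul, ← Matrix.map_mul] at h
  exact Matrix.map_injective (Rat.castHom (AlgebraicClosure ℚ)).injective h

theorem pi_of_conj {x : dAlt n} {i j : Fin n}
    (h : (x.1 : Matrix (Ix n) (Ix n) ℚ) * cE ℚ n i = cE ℚ n j * (x.1 : Matrix (Ix n) (Ix n) ℚ)) :
    pi n x i = j := by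
  rw [dAlt_conj] at h
  refine Cj_cE_inj ?_
  have h1 := congrArg (fun M => M * ((x.1⁻¹ : (Matrix (Ix n) (Ix n) ℚ)ˣ) : Matrix (Ix n) (Ix n) ℚ)) h
  simpa only [mul_assoc, Units.mul_inv, mul_one] using h1

end DC83
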