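import Pool.Agent.H.MP_83e36b_nt.re.KDef
import Pool.Agent.H.MP_83e36b_nt.rg.GDefG

/-! Towers of extensions of finite groups over number fields. -/

set_option autoImplicit false

namespace NF83

open CM83 NR83 WA83 DC83

/-- The homomorphisms `α : G → Gal(K/k)` for which the group `G` is built up in finitely many steps, in
any order, starting from an isomorphism `G → Gal(K/k)` (`gal`), by surjections `q : G → A` with kernel
* a product of symmetric groups (`sym`),
* a group with a subnormal series whose factors are alternating groups `A_n`, `n ≥ 5`, `n ≠ 6`, or, more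
  generally, the top of a Weyl tower (`alt`),
* the double cover `2.A_n`, `4 ≤ n ≤ 7`, which has a complement (`s` is a section of `q`) and on which
  `G` acts through `S_n`, i.e. the natural map from the kernel to `A_n` extends to a homomorphism
  `π : G → S_n` (`dbl`). -/
inductive NFTower {k : Type} [Field k] {K : Type} [Field K] [Algebra k K] :
    {G : Type} → [Group G] → (G →* (K ≃ₐ[k] K)) → Prop
  | gal {G : Type} [Group G] (α : G →* (K ≃ₐ[k] K)) (h : Function.Bijective α) : NFTower α
  | sym {G A : Type} [Group G] [Group A] (γ : A →* (K ≃ₐ[k] K)) (q : G →* A)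
      (hq : Function.Surjective q) {J I : Type} [Finite J] [Finite I] [MulAction G J]
      [MulAction A I] (p : J → I) (h : SymKer q p) (hγ : NFTower γ) : NFTower (γ.comp q)
  | alt {G A : Type} [Group G] [Group A] (γ : A →* (K ≃ₐ[k] K)) (q : G →* A)
      (hq : Function.Surjective q) (hN : AltSeries q.ker ∨ Tower G q.ker) (hγ : NFTower γ) :
      NFTower (γ.comp q)
  | dbl {G A : Type} [Group G] [Group A] (γ : A →* (K ≃ₐ[k] K)) (q : G →* A) (s : A →* G)
      (hs : ∀ a, q (s a) = a) (n : ℕ) (hn : 4 ≤ n) (hn7 : n ≤ 7) (χ : q.ker →* CMat n)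
      (π : G →* Equiv.Perm (Fin n)) (h : KerAlt n q χ π) (hγ : NFTower γ) : NFTower (γ.comp q)

end NF83
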