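import Pool.Agent.H.MP_83e36b_nt.re.Cj

/-! The embedding of `2.A_n` in `2.A_(n+m)`. -/

set_option autoImplicit false

open Matrix

namespace DC83

private theorem Em_sq {n : ℕ} {i j : Fin n} (h : i ≠ j) :
    (cE ℚ n i - cE ℚ n j) * (cE ℚ n i - cE ℚ n j) = (2 : ℚ) • 1 := by
  have h1 := cE_anti ℚ n h
  rw [sub_mul, mul_sub, mul_sub, cE_sq, cE_sq, h1, two_smul]
  abel

private theorem Em_inv {n : ℕ} {i j k l : Fin n} (h : i ≠ j) (h' : k ≠ l) :
    ((1 / 2 : ℚ) • ((cE ℚ n i - cE ℚ n j) * (cE ℚ n k - cE ℚ n l))) *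
      ((1 / 2 : ℚ) • ((cE ℚ n k - cE ℚ n l) * (cE ℚ n i - cE ℚ n j))) = 1 := by
  have e1 := Em_sq h
  have e2 := Em_sq h'
  generalize cE ℚ n i - cE ℚ n j = a at *
  generalize cE ℚ n k - cE ℚ n l = b at *
  have e3 : a * b * (b * a) = (4 : ℚ) • 1 := by
    calc a * b * (b * a) = a * (b * b) * a := by simp only [mul_assoc]
      _ = (2 : ℚ) • (a * a) := by
          rw [e2, Matrix.mul_smul, mul_one, Matrix.smul_mul]
      _ = (4 : ℚ) • 1 := by rw [e1, smul_smul]; norm_num
  rw [Matrix.smul_mul, Matrix.mul_smul, e3, smul_smul, smul_smul]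
  norm_num

/-- the generators, as units -/
private noncomputable def Em_u {N : ℕ} {i j k l : Fin N} (h : i ≠ j) (h' : k ≠ l) :
    (Matrix (Ix N) (Ix N) ℚ)ˣ :=
  ⟨(1 / 2 : ℚ) • ((cE ℚ N i - cE ℚ N j) * (cE ℚ N k - cE ℚ N l)),
    (1 / 2 : ℚ) • ((cE ℚ N k - cE ℚ N l) * (cE ℚ N i - cE ℚ N j)), Em_inv h h', Em_inv h' h⟩

/-- `Ix (n + m) = Ix n × Ix m` -/
private def Em_e (n m : ℕ) : Ix (n + m) ≃ Ix n × Ix m where
  toFun A := (fun i => A (Fin.castAdd m i), fun j => A (Fin.natAdd n j))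
  invFun p := Fin.append p.1 p.2
  left_inv A := by
    funext a
    refine Fin.addCases (fun i => ?_) (fun j => ?_) a
    · exact Fin.append_left _ _ i
    · exact Fin.append_right _ _ j
  right_inv p := by
    refine Prod.ext (funext fun i => ?_) (funext fun j => ?_)
    · exact Fin.append_left p.1 p.2 i
    · exact Fin.append_right p.1 p.2 j

/-- the matrices `M ⊗ 1` -/
private noncomputable def Em_J (n m : ℕ) :
    Matrix (Ix n) (Ix n) ℚ →+* Matrix (Ix (n + m)) (Ix (n + m)) ℚ where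
  toFun M := (kroneckerMap (fun a b => a * b) M (1 : Matrix (Ix m) (Ix m) ℚ)).submatrix
    (Em_e n m) (Em_e n m)
  map_one' := by
    have h : kroneckerMap (fun a b => a * b) (1 : Matrix (Ix n) (Ix n) ℚ)
      (1 : Matrix (Ix m) (Ix m) ℚ) = 1 := one_kronecker_one
    rw [h, submatrix_one_equiv]
  map_mul' M M' := by
    have h : kroneckerMap (fun a b => a * b) (M * M') (1 : Matrix (Ix m) (Ix m) ℚ) =
        kroneckerMap (fun a b => a * b) M (1 : Matrix (Ix m) (Ix m) ℚ) *
          kroneckerMap (fun a b => a * b) M' (1 : Matrix (Ix m) (Ix m) ℚ) := by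
      have h1 := mul_kronecker_mul M M' (1 : Matrix (Ix m) (Ix m) ℚ) (1 : Matrix (Ix m) (Ix m) ℚ)
      rw [mul_one] at h1
      exact h1
    rw [h, submatrix_mul_equiv]
  map_zero' := by
    have h : kroneckerMap (fun a b => a * b) (0 : Matrix (Ix n) (Ix n) ℚ)
      (1 : Matrix (Ix m) (Ix m) ℚ) = 0 := zero_kronecker _
    rw [h]
    rfl
  map_add' M M' := by
    have h : kroneckerMap (fun a b => a * b) (M + M') (1 : Matrix (Ix m) (Ix m) ℚ) =
        kroneckerMap (fun a b => a * b) M (1 : Matrix (Ix m) (Ix m) ℚ) +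
          kroneckerMap (fun a b => a * b) M' (1 : Matrix (Ix m) (Ix m) ℚ) := add_kronecker _ _ _
    rw [h, submatrix_add]
    rfl

private theorem Em_J_apply (n m : ℕ) (M : Matrix (Ix n) (Ix n) ℚ) (B A : Ix (n + m)) :
    Em_J n m M B A = M (Em_e n m B).1 (Em_e n m A).1 *
      (1 : Matrix (Ix m) (Ix m) ℚ) (Em_e n m B).2 (Em_e n m A).2 := rfl

private theorem Em_J_smul (n m : ℕ) (c : ℚ) (M : Matrix (Ix n) (Ix n) ℚ) :
    Em_J n m (c • M) = c • Em_J n m M := by
  ext B A
  rw [Em_J_apply, Matrix.smul_apply, Matrix.smul_apply, Em_J_apply, smul_mul_assoc]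

private theorem Em_J_inj (n m : ℕ) : Function.Injective (Em_J n m) := by
  intro M M' h
  ext B A
  have h1 := congrFun (congrFun h ((Em_e n m).symm (B, 0))) ((Em_e n m).symm (A, 0))
  rw [Em_J_apply, Em_J_apply, Equiv.apply_symm_apply, Equiv.apply_symm_apply,
    Matrix.one_apply_eq, mul_one, mul_one] at h1
  exact h1

private theorem Em_sg {n m : ℕ} (i : Fin n) (A : Ix (n + m)) :
    sg (Fin.castAdd m i) A = sg i (Em_e n m A).1 := by
  unfold sg
  rw [Finset.prod_filter, Finset.prod_filter, Fin.prod_univ_add]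
  have h1 : ∏ j : Fin m, (if Fin.natAdd n j < Fin.castAdd m i then
      (if A (Fin.natAdd n j) = 0 then (1 : ℤ) else -1) else 1) = 1 := by
    refine Finset.prod_eq_one fun j _ => if_neg ?_
    rw [Fin.lt_def, Fin.val_natAdd, Fin.val_castAdd]
    have := i.2
    omega
  rw [h1, mul_one]
  refine Finset.prod_congr rfl fun j _ => ?_
  have h2 : (Fin.castAdd m j < Fin.castAdd m i) ↔ j < i := by
    rw [Fin.lt_def, Fin.lt_def, Fin.val_castAdd, Fin.val_castAdd]
  simp only [h2]
  rfl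

private theorem Em_add {n m : ℕ} (i : Fin n) (B A : Ix (n + m)) :
    B = A + Pi.single (Fin.castAdd m i) 1 ↔
      (Em_e n m B).1 = (Em_e n m A).1 + Pi.single i 1 ∧ (Em_e n m B).2 = (Em_e n m A).2 := by
  constructor
  · rintro rfl
    refine ⟨funext fun k => ?_, funext fun k => ?_⟩
    · show A (Fin.castAdd m k) + (Pi.single (Fin.castAdd m i) 1 : Ix (n + m)) (Fin.castAdd m k) =
        A (Fin.castAdd m k) + (Pi.single i 1 : Ix n) k
      congr 1
      rw [Pi.single_apply, Pi.single_apply]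
      congr 1
      exact propext (Fin.castAdd_injective n m).eq_iff
    · show A (Fin.natAdd n k) + (Pi.single (Fin.castAdd m i) 1 : Ix (n + m)) (Fin.natAdd n k) =
        A (Fin.natAdd n k)
      rw [Pi.single_apply, if_neg, add_zero]
      intro h
      have h1 := congrArg Fin.val h
      rw [Fin.val_natAdd, Fin.val_castAdd] at h1
      have := i.2
      omega
  · rintro ⟨h1, h2⟩
    funext a
    refine Fin.addCases (fun k => ?_) (fun k => ?_) a
    · have h3 : B (Fin.castAdd m k) = A (Fin.castAdd m k) + (Pi.single i 1 : Ix n) k :=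
        congrFun h1 k
      rw [h3, Pi.add_apply]
      congr 1
      rw [Pi.single_apply, Pi.single_apply]
      congr 1
      exact propext (Fin.castAdd_injective n m).eq_iff.symm
    · have h3 : B (Fin.natAdd n k) = A (Fin.natAdd n k) := congrFun h2 k
      rw [h3, Pi.add_apply, Pi.single_apply, if_neg, add_zero]
      intro h
      have h4 := congrArg Fin.val h
      rw [Fin.val_natAdd, Fin.val_castAdd] at h4
      have := i.2
      omega

private theorem Em_J_cE (n m : ℕ) (i : Fin n) :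
    Em_J n m (cE ℚ n i) = cE ℚ (n + m) (Fin.castAdd m i) := by
  ext B A
  rw [Em_J_apply]
  unfold cE
  rw [Matrix.of_apply, Matrix.of_apply, Matrix.one_apply, Em_sg]
  by_cases h1 : (Em_e n m B).1 = (Em_e n m A).1 + Pi.single i 1
  · by_cases h2 : (Em_e n m B).2 = (Em_e n m A).2
    · rw [if_pos h1, if_pos h2, if_pos ((Em_add i B A).2 ⟨h1, h2⟩), mul_one]
    · rw [if_neg h2, if_neg (fun h => h2 ((Em_add i B A).1 h).2), mul_zero]
  · rw [if_neg h1, if_neg (fun h => h1 ((Em_add i B A).1 h).1), zero_mul]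

private theorem Em_J_gen (n m : ℕ) (i j k l : Fin n) :
    Em_J n m ((1 / 2 : ℚ) • ((cE ℚ n i - cE ℚ n j) * (cE ℚ n k - cE ℚ n l))) =
      (1 / 2 : ℚ) • ((cE ℚ (n + m) (Fin.castAdd m i) - cE ℚ (n + m) (Fin.castAdd m j)) *
        (cE ℚ (n + m) (Fin.castAdd m k) - cE ℚ (n + m) (Fin.castAdd m l))) := by
  rw [Em_J_smul, map_mul, map_sub, map_sub, Em_J_cE, Em_J_cE, Em_J_cE, Em_J_cE]

/-- the homomorphism on the units -/
private noncomputable def Em_k (n m : ℕ) : (Matrix (Ix n) (Ix n) ℚ)ˣ →*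
    (Matrix (Ix (n + m)) (Ix (n + m)) ℚ)ˣ := Units.map (Em_J n m).toMonoidHom

private theorem Em_k_val (n m : ℕ) (x : (Matrix (Ix n) (Ix n) ℚ)ˣ) :
    (Em_k n m x : Matrix (Ix (n + m)) (Ix (n + m)) ℚ) = Em_J n m x := rfl

private theorem Em_cast_ne {n m : ℕ} {i j : Fin n} (h : i ≠ j) :
    Fin.castAdd m i ≠ Fin.castAdd m j := fun e => h (Fin.castAdd_injective n m e)

private theorem Em_mem (n m : ℕ) : dAlt n ≤ (dAlt (n + m)).comap (Em_k n m) := by
  unfold dAlt
  rw [Subgroup.closure_le]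
  rintro x ⟨i, j, k, l, h, h', hx⟩
  refine Subgroup.subset_closure ⟨Fin.castAdd m i, Fin.castAdd m j, Fin.castAdd m k,
    Fin.castAdd m l, Em_cast_ne h, Em_cast_ne h', ?_⟩
  rw [Em_k_val, hx, Em_J_gen]

/-- the embedding -/
private noncomputable def Em_j (n m : ℕ) : dAlt n →* dAlt (n + m) :=
  ((Em_k n m).comp (dAlt n).subtype).codRestrict (dAlt (n + m)) fun x => Em_mem n m x.2

private theorem Em_j_val (n m : ℕ) (x : dAlt n) : (Em_j n m x).1 = Em_k n m x.1 := rfl

private theorem Em_range (n m : ℕ) : (Em_j n m).range = dAltIn n m := by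
  refine Subgroup.map_injective (dAlt (n + m)).subtype_injective ?_
  have h1 : (Em_j n m).range.map (dAlt (n + m)).subtype = (dAlt n).map (Em_k n m) := by
    rw [MonoidHom.range_eq_map, Subgroup.map_map]
    have h2 : (dAlt (n + m)).subtype.comp (Em_j n m) = (Em_k n m).comp (dAlt n).subtype := rfl
    rw [h2, ← Subgroup.map_map, ← MonoidHom.range_eq_map, Subgroup.range_subtype]
  have h2 : (dAlt n).map (Em_k n m) = Subgroup.closure (Em_k n m '' {x | ∃ i j k l : Fin n,
      i ≠ j ∧ k ≠ l ∧ (x : Matrix (Ix n) (Ix n) ℚ) =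
        (1 / 2 : ℚ) • ((cE ℚ n i - cE ℚ n j) * (cE ℚ n k - cE ℚ n l))}) :=
    MonoidHom.map_closure _ _
  rw [h1, h2]
  unfold dAltIn
  rw [MonoidHom.map_closure]
  congr 1
  ext x
  constructor
  · rintro ⟨y, ⟨i, j, k, l, h, h', hy⟩, rfl⟩
    have hm : y ∈ dAlt n := Subgroup.subset_closure ⟨i, j, k, l, h, h', hy⟩
    refine ⟨⟨Em_k n m y, Em_mem n m hm⟩, ⟨i, j, k, l, h, h', ?_⟩, rfl⟩
    show Em_J n m y = _
    rw [hy, Em_J_gen]
  · rintro ⟨z, ⟨i, j, k, l, h, h', hz⟩, rfl⟩
    refine ⟨Em_u h h', ⟨i, j, k, l, h, h', rfl⟩, ?_⟩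
    refine Units.ext ?_
    rw [Em_k_val]
    show Em_J n m ((1 / 2 : ℚ) • ((cE ℚ n i - cE ℚ n j) * (cE ℚ n k - cE ℚ n l))) = _
    rw [Em_J_gen]
    exact hz.symm

private theorem Em_comm {N : ℕ} {a b c : Fin N} (ha : a ≠ c) (hb : b ≠ c) :
    (cE ℚ N a - cE ℚ N b) * cE ℚ N c = - (cE ℚ N c * (cE ℚ N a - cE ℚ N b)) := by
  rw [sub_mul, mul_sub, cE_anti ℚ N ha, cE_anti ℚ N hb]
  abel

private theorem Em_ne {n m : ℕ} (i : Fin n) (p : Fin m) : Fin.castAdd m i ≠ Fin.natAdd n p := by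
  intro h
  have h1 := congrArg Fin.val h
  rw [Fin.val_natAdd, Fin.val_castAdd] at h1
  have := i.2
  omega

private theorem Em_commute {n m : ℕ} (p : Fin m) {x : (Matrix (Ix n) (Ix n) ℚ)ˣ}
    (hx : x ∈ dAlt n) :
    Commute (Em_k n m x : Matrix (Ix (n + m)) (Ix (n + m)) ℚ) (cE ℚ (n + m) (Fin.natAdd n p)) := by
  refine Subgroup.closure_induction (p := fun x _ =>
    Commute (Em_k n m x : Matrix (Ix (n + m)) (Ix (n + m)) ℚ) (cE ℚ (n + m) (Fin.natAdd n p)))
    ?_ ?_ ?_ ?_ hx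
  · rintro x ⟨i, j, k, l, h, h', hx⟩
    rw [Em_k_val, hx, Em_J_gen]
    refine Commute.smul_left ?_ _
    have h1 := Em_comm (Em_ne (m := m) i p) (Em_ne (m := m) j p)
    have h2 := Em_comm (Em_ne (m := m) k p) (Em_ne (m := m) l p)
    show _ * _ * _ = _ * (_ * _)
    rw [mul_assoc, h2, mul_neg, ← mul_assoc, h1, neg_mul, neg_neg, mul_assoc]
  · rw [map_one, Units.val_one]
    exact Commute.one_left _
  · intro x y _ _ h1 h2
    rw [map_mul, Units.val_mul]
    exact h1.mul_left h2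
  · intro x _ h1
    rw [map_inv]
    exact Commute.units_inv_left h1

/-- Proof: `Ix (n + m) = Ix n × Ix m` (`A ↦ (i ↦ A (castAdd m i), j ↦ A (natAdd n j))`).  Let
`J M` be the matrix `M ⊗ 1`: `J M B A = if (∀ j : Fin m, B (natAdd n j) = A (natAdd n j)) then
M (B ∘ castAdd m) (A ∘ castAdd m) else 0`.  `J` is an injective ring homomorphism
`Matrix (Ix n) (Ix n) ℚ →+* Matrix (Ix (n + m)) (Ix (n + m)) ℚ` with `J (c • M) = c • J M` and
`J (cE ℚ n i) = cE ℚ (n + m) (castAdd m i)`: the sign `sg i A` depends only on the entries of `A` at the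
indices `< i`.  (E.g. define `J` as the submatrix of `Matrix.kroneckerMap`/`Matrix.kronecker M 1` by the
equivalence `Ix (n + m) ≃ Ix n × Ix m` made from `Fin.appendEquiv`, or directly.)  Then `Units.map J`
maps the generators of `dAlt n` to the generators of `dAltIn n m`; so `j` is defined, `j.range = dAltIn n m`
(`MonoidHom.map_closure` or closure induction; compare `CBr_sub` in tw/CBr.lean) and `j` is injective.
The permutation `pi (n + m) (j x)`: `pi_of_conj` (re/Cj.lean) with `dAlt_conj` for `castAdd m i`, and, for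
`natAdd n p`, the elements of `dAltIn n m` commute with `cE ℚ (n + m) (natAdd n p)` (closure induction:
the generators are products of two differences of `cE (castAdd i)`, which anticommute with it,
`cE_anti`). -/
theorem exists_jemb (n m : ℕ) : ∃ j : dAlt n →* dAlt (n + m), Function.Injective j ∧
    j.range = dAltIn n m ∧ ∀ x, pi (n + m) (j x) = bP (pi n x) 1 := by
  refine ⟨Em_j n m, ?_, Em_range n m, ?_⟩
  · intro x y h
    refine Subtype.ext (Units.map_injective (f := (Em_J n m).toMonoidHom) (Em_J_inj n m) ?_)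
    exact congrArg Subtype.val h
  · intro x
    refine Equiv.ext fun a => ?_
    refine Fin.addCases (fun i => ?_) (fun p => ?_) a
    · rw [bP_castAdd]
      refine pi_of_conj ?_
      have h1 := congrArg (Em_J n m) (dAlt_conj x i)
      rw [map_mul, map_mul, Em_J_cE, Em_J_cE] at h1
      exact h1
    · rw [bP_natAdd, Equiv.Perm.one_apply]
      exact pi_of_conj (Em_commute p x.2)

end DC83
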