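import Pool.Agent.H.MP_83e36b_nt.re.EDef
import Pool.Agent.H.MP_83e36b_nt.re.As
import Pool.Agent.H.MP_83e36b_nt.rg.FinG

/-! The main theorem. -/

set_option autoImplicit false

namespace NF83

open CM83 NR83 WA83 DC83

/-- Main theorem. -/
theorem main_nftower {k : Type} [Field k] [NumberField k] {K : Type} [Field K] [Algebra k K]
    {G : Type} [Group G] [Finite G] (α : G →* (K ≃ₐ[k] K)) (hfix : fixF α = ⊥)
    (hα : NFTower α) : WAFinFor α := by
  rename_i hfin
  revert hfin hfix
  induction hα with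
  | gal α h =>
    intro hfin hfix
    obtain ⟨h1, h2, h3⟩ := gal_of_fixR hfix
    exact wa_galR α h
  | sym γ q hq p h hγ ih =>
    intro hfin hfix
    rw [fixF_comp γ q hq] at hfix
    have hA := Finite.of_surjective q hq
    exact wa_symR γ q hq h (ih hfix)
  | alt γ q hq hN hγ ih =>
    intro hfin hfix
    rw [fixF_comp γ q hq] at hfix
    have hA := Finite.of_surjective q hq
    exact wa_altR γ q hq hN (ih hfix)
  | dbl γ q s hs n hn hn7 χ π h hγ ih =>
    intro hfin hfix
    have hq : Function.Surjective q := fun a => ⟨s a, hs a⟩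
    rw [fixF_comp γ q hq] at hfix
    have hA := Finite.of_surjective q hq
    obtain ⟨h1, h2, h3⟩ := gal_of_fixR hfix
    obtain ⟨m, φ, hφ⟩ := h.exists_ker hn hs
    exact wa_dblR γ h3 q hs hn hn7 φ hφ (ih hfix)

end NF83
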